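import Mathlib
import Pool.Agent.Shared.NP.Defs
import Pool.Agent.Lib.MP_b4992a_lc.Defs
import Pool.Agent.Lib.MP_b4992a_lc.Main
import Pool.Agent.Lib.MP_b4992a_lc.InNP

/-! MinMaxSwitches in the stacking model is NP-complete; one reduction with `K = 1` serves the
stacking model and the weaving model. -/

open Pool.Agent.Lib.MP_b4992a_lc Pool.Agent.Shared.NP

theorem Pool.Agent.Retired.MP_b4992a_lc.GapHard.result :
    InNP encInst (fun p : Inst => Stacking p.1.1 p.1.2) ∧
    ∀ L : List Bool → Prop, InNP id L →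
      ∃ f : List Bool → Inst, PolyComputable id encInst f ∧ ∀ x : List Bool, (f x).1.2 = 1 ∧
        (L x ↔ Stacking (f x).1.1 (f x).1.2) ∧ (L x ↔ Weaving (f x).1.1 (f x).1.2) := by
  refine ⟨stacking_inNP, fun L hL => ?_⟩
  obtain ⟨f, hf, h⟩ := gap L hL
  refine ⟨f, hf, fun x => ⟨(h x).1, ⟨(h x).2.1, fun hs => ?_⟩, fun hx => ((h x).2.1 hx).weaving,
    fun hw => ?_⟩⟩
  · by_contra hx
    exact (h x).2.2 hx hs.weaving
  · by_contra hx
    exact (h x).2.2 hx hw
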